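import Pool.Agent.Q75.BS.Stm

set_option autoImplicit false

/-!
Job BS-APX of project BS (helper75): from the direction to the transversal position.
-/

namespace Pool.Agent.Q237.BS

open Complex Set MeasureTheory Filter Topology Pool.Agent.W780.PG Pool.Agent.W780.BB
open Pool.Agent.TH103.BL

open scoped Real ENNReal ComplexConjugate

/-- the open square -/
def Sq (b : ℝ) : Set ℂ := {w | w.re ∈ Ioo (-b) b ∧ w.im ∈ Ioo (-b) b}

theorem Sq_meas (b : ℝ) : MeasurableSet (Sq b) :=
  (measurable_re measurableSet_Ioo).inter (measurable_im measurableSet_Ioo)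

/-- Fubini for the square -/
theorem sq_int (b : ℝ) (hb : 0 < b) (Φ : ℝ → ENNReal) (hΦ : Measurable Φ) :
    ∫⁻ w in Sq b, Φ w.im = ENNReal.ofReal (2 * b) * ∫⁻ t in Ioo (-b) b, Φ t := by
  have h1 : ∫⁻ w in Sq b, Φ w.im =
      ∫⁻ x in (Ioo (-b) b ×ˢ Ioo (-b) b : Set (ℝ × ℝ)), Φ x.2 := by
    have h2 := Complex.volume_preserving_equiv_real_prod.setLIntegral_comp_preimage
      (s := (Ioo (-b) b ×ˢ Ioo (-b) b : Set (ℝ × ℝ))) (f := fun x : ℝ × ℝ => Φ x.2)
      (measurableSet_Ioo.prod measurableSet_Ioo) (hΦ.comp measurable_snd)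
    exact h2
  rw [h1, Measure.volume_eq_prod, ← Measure.prod_restrict,
    lintegral_prod_symm' (fun x : ℝ × ℝ => Φ x.2) (hΦ.comp measurable_snd)]
  simp only [lintegral_const, Measure.restrict_apply MeasurableSet.univ, univ_inter,
    Real.volume_Ioo]
  rw [lintegral_mul_const _ hΦ, mul_comm]
  congr 2
  ring

/-- rigid motions -/
theorem mp_rigid (θ : ℝ) (c : ℂ) : MeasurePreserving (fun w : ℂ => c + w * dir θ) := by
  have h1 : MeasurePreserving (rotation (Circle.exp θ)) :=
    (rotation (Circle.exp θ)).measurePreserving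
  have h2 := (measurePreserving_add_left (volume : Measure ℂ) c).comp h1
  have h3 : (fun w : ℂ => c + w * dir θ) = (fun x => c + x) ∘ (rotation (Circle.exp θ)) := by
    funext w
    show c + w * dir θ = c + rotation (Circle.exp θ) w
    rw [rotation_apply, Circle.coe_exp, mul_comm]
    rfl
  rw [h3]
  exact h2

theorem dir_expand (z₀ w : ℂ) (θ : ℝ) :
    z₀ + w * dir θ = (z₀ + w.im • (I * dir θ)) + w.re • dir θ := by
  conv_lhs => rw [← re_add_im w]
  simp only [real_smul]
  ring

theorem rpow_add_bound {x y q : ℝ} (hx : 0 ≤ x) (hy : 0 ≤ y) (hq : 0 ≤ q) :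
    (x + y) ^ q ≤ 2 ^ q * (x ^ q + y ^ q) := by
  have h1 : x + y ≤ 2 * max x y := by
    have := le_max_left x y
    have := le_max_right x y
    linarith
  have hm : 0 ≤ max x y := le_max_of_le_left hx
  calc (x + y) ^ q ≤ (2 * max x y) ^ q := Real.rpow_le_rpow (by positivity) h1 hq
    _ = 2 ^ q * (max x y) ^ q := Real.mul_rpow (by norm_num) hm
    _ ≤ 2 ^ q * (x ^ q + y ^ q) := by
      apply mul_le_mul_of_nonneg_left _ (by positivity)
      rcases le_total x y with h | h
      · rw [max_eq_right h]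
        linarith [Real.rpow_nonneg hx q]
      · rw [max_eq_left h]
        linarith [Real.rpow_nonneg hy q]

section main

variable {n : ℕ} {p : Fin (n + 3) → ℂ}

/-- domain of integration in `Modulus` -/
def DD (p : Fin (n + 3) → ℂ) (i : Fin (n + 3)) (r h : ℝ) : Set (ℂ × ℝ) :=
  {x : ℂ × ℝ | x.1 ∈ region p ∧ ‖x.1 - p i‖ < r ∧ x.2 ∈ Ico 0 (2 * π) ∧
        0 < sd p i x * sd p i (x.1, x.2 + h)}

theorem DD_meas (hp : IsConvexPolygon p) (i : Fin (n + 3)) (r h : ℝ) :
    MeasurableSet (DD p i r h) := by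
  have h1 : MeasurableSet {x : ℂ × ℝ | x.1 ∈ region p} := by
    rw [region_eq hp]
    exact measurable_fst (reg_open hp).measurableSet
  have h2 : MeasurableSet {x : ℂ × ℝ | ‖x.1 - p i‖ < r} :=
    measurableSet_lt (by fun_prop) measurable_const
  have h3 : MeasurableSet {x : ℂ × ℝ | x.2 ∈ Ico 0 (2 * π)} := measurable_snd measurableSet_Ico
  have h4 : MeasurableSet {x : ℂ × ℝ | 0 < sd p i x * sd p i (x.1, x.2 + h)} := by
    apply measurableSet_lt measurable_const
    apply Measurable.mul (sd_cont p i).measurable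
    exact ((sd_cont p i).comp (continuous_fst.prodMk (continuous_snd.add continuous_const))).measurable
  exact h1.inter (h2.inter (h3.inter h4))

/-- the integrand -/
noncomputable def FF (f : ℂ × ℝ → ℝ) (q h : ℝ) (x : ℂ × ℝ) : ENNReal :=
  ENNReal.ofReal (|f (x.1, x.2 + h) - f x| ^ q)

theorem FF_meas {f : ℂ × ℝ → ℝ} (hf : Measurable f) (q h : ℝ) : Measurable (FF f q h) := by
  unfold FF
  apply ENNReal.measurable_ofReal.comp
  apply Measurable.pow_const
  apply Measurable.abs
  exact (hf.comp (measurable_fst.prodMk (measurable_snd.add_const h))).sub hf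

/-- slice integral -/
noncomputable def HH (p : Fin (n + 3) → ℂ) (f : ℂ × ℝ → ℝ) (i : Fin (n + 3)) (q r h θ : ℝ) :
    ENNReal := ∫⁻ z : ℂ, (DD p i r h).indicator (FF f q h) (z, θ)

theorem HH_meas (hp : IsConvexPolygon p) {f : ℂ × ℝ → ℝ} (hf : Measurable f) (i : Fin (n + 3))
    (q r h : ℝ) : Measurable (HH p f i q r h) := by
  unfold HH
  exact Measurable.lintegral_prod_left' ((FF_meas hf q h).indicator (DD_meas hp i r h))

theorem HH_int (hp : IsConvexPolygon p) {f : ℂ × ℝ → ℝ} (hf : Measurable f) (i : Fin (n + 3))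
    (q r h : ℝ) : ∫⁻ θ, HH p f i q r h θ = ∫⁻ x in DD p i r h, FF f q h x := by
  rw [← lintegral_indicator (DD_meas hp i r h), Measure.volume_eq_prod,
    lintegral_prod_symm' _ ((FF_meas hf q h).indicator (DD_meas hp i r h))]
  rfl

theorem sq_le (hp : IsConvexPolygon p) {f : ℂ × ℝ → ℝ} (hf : Measurable f) (i : Fin (n + 3))
    (q r h θ b : ℝ) (c : ℂ) (hc : ∀ w ∈ Sq b, (c + w * dir θ, θ) ∈ DD p i r h) :
    ∫⁻ w in Sq b, FF f q h (c + w * dir θ, θ) ≤ HH p f i q r h θ := by
  have hm : Measurable fun z : ℂ => (DD p i r h).indicator (FF f q h) (z, θ) :=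
    ((FF_meas hf q h).indicator (DD_meas hp i r h)).comp (measurable_id.prodMk measurable_const)
  unfold HH
  rw [← (mp_rigid θ c).lintegral_comp hm, ← lintegral_indicator (Sq_meas b)]
  apply lintegral_mono
  intro w
  by_cases hw : w ∈ Sq b
  · rw [indicator_of_mem hw]
    beta_reduce
    rw [indicator_of_mem (hc w hw)]
  · rw [indicator_of_notMem hw]
    exact zero_le

/-- the pointwise estimate -/
theorem ptw (hp : IsConvexPolygon p) {f : ℂ × ℝ → ℝ} (hI : IsInvariantFun p f) {q b h σ : ℝ}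
    (hq : 1 ≤ q) (hb : 0 < b) (hσ0 : 0 < σ) (hσ1 : σ < b / 4) (hsin : b * Real.sin h = σ)
    {z₀ : ℂ} (hball : Metric.ball z₀ (4 * b) ⊆ reg p) (θ : ℝ) {w : ℂ} (hw : w ∈ Sq b) :
    ENNReal.ofReal (|f (z₀ + (w.im + σ) • (I * dir θ), θ) - f (z₀ + w.im • (I * dir θ), θ)| ^ q) ≤
      ENNReal.ofReal (2 ^ q) *
        (FF f q h ((z₀ - b • dir θ + b • dir (θ + h)) + w * dir θ, θ) +
          FF f q h ((z₀ - b • dir θ) + w * dir θ, θ)) := by
  have hreg : ∀ v : ℂ, ‖v‖ < 4 * b → z₀ + v ∈ region p := by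
    intro v hv
    rw [region_eq hp]
    apply hball
    rw [Metric.mem_ball, dist_eq_norm, add_sub_cancel_left]
    exact hv
  obtain ⟨⟨hr1, hr2⟩, hi1, hi2⟩ := hw
  have hre : |w.re| < b := abs_lt.2 ⟨by linarith, hr2⟩
  have him : |w.im| < b := abs_lt.2 ⟨by linarith, hi2⟩
  have hnw : ‖w‖ ≤ 3 / 2 * b := by
    rw [← Real.sqrt_sq (by positivity : (0 : ℝ) ≤ 3 / 2 * b), Complex.norm_eq_sqrt_sq_add_sq]
    apply Real.sqrt_le_sqrt
    have e1 : w.re ^ 2 ≤ b ^ 2 := by rw [← sq_abs]; gcongr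
    have e2 : w.im ^ 2 ≤ b ^ 2 := by rw [← sq_abs w.im]; gcongr
    nlinarith [sq_nonneg b]
  have hnd : ∀ a : ℝ, ‖dir a‖ = 1 := norm_dir
  have hnI : ‖I * dir θ‖ = 1 := by rw [norm_mul, norm_I, one_mul, hnd]
  have hnwd : ‖w * dir θ‖ ≤ 3 / 2 * b := by rw [norm_mul, hnd, mul_one]; exact hnw
  -- the points
  have hmem_z : z₀ + w * dir θ ∈ region p := hreg _ (by linarith)
  have hmem_t : z₀ + w.im • (I * dir θ) ∈ region p := by
    apply hreg
    rw [norm_smul, hnI, mul_one, Real.norm_eq_abs]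
    linarith
  have hmem_ts : z₀ + (w.im + σ) • (I * dir θ) ∈ region p := by
    apply hreg
    rw [norm_smul, hnI, mul_one, Real.norm_eq_abs]
    have := abs_add_le w.im σ
    rw [abs_of_pos hσ0] at this
    linarith
  have hmem_zs : z₀ + (w * dir θ + σ • (I * dir θ)) ∈ region p := by
    apply hreg
    have h1 := norm_add_le (w * dir θ) (σ • (I * dir θ))
    have h2 : ‖σ • (I * dir θ)‖ = σ := by
      rw [norm_smul, hnI, mul_one, Real.norm_eq_abs, abs_of_pos hσ0]
    linarith
  have hmem_a : z₀ + (w * dir θ - b • dir θ) ∈ region p := by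
    apply hreg
    have h1 := norm_sub_le (w * dir θ) (b • dir θ)
    have h2 : ‖b • dir θ‖ = b := by
      rw [norm_smul, hnd, mul_one, Real.norm_eq_abs, abs_of_pos hb]
    linarith
  have hmem_z' : z₀ + (w * dir θ - b • dir θ + b • dir (θ + h)) ∈ region p := by
    apply hreg
    have h1 := norm_sub_le (w * dir θ) (b • dir θ)
    have h2 : ‖b • dir θ‖ = b := by
      rw [norm_smul, hnd, mul_one, Real.norm_eq_abs, abs_of_pos hb]
    have h3 := norm_add_le (w * dir θ - b • dir θ) (b • dir (θ + h))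
    have h4 : ‖b • dir (θ + h)‖ = b := by
      rw [norm_smul, hnd, mul_one, Real.norm_eq_abs, abs_of_pos hb]
    linarith
  set z' : ℂ := (z₀ - b • dir θ + b • dir (θ + h)) + w * dir θ with hz'
  set a : ℂ := (z₀ - b • dir θ) + w * dir θ with ha
  have ez' : z' = z₀ + (w * dir θ - b • dir θ + b • dir (θ + h)) := by rw [hz']; ring
  have ea : a = z₀ + (w * dir θ - b • dir θ) := by rw [ha]; ring
  -- identities
  have f1 : f (z₀ + w.im • (I * dir θ), θ) = f (a, θ) := by
    have h1 : z₀ + w.im • (I * dir θ) + w.re • dir θ = z₀ + w * dir θ := (dir_expand z₀ w θ).symm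
    rw [hI.free _ θ w.re hmem_t (by rw [h1]; exact hmem_z), h1]
    have h2 : a + b • dir θ = z₀ + w * dir θ := by rw [ha]; ring
    rw [hI.free a θ b (by rw [ea]; exact hmem_a) (by rw [h2]; exact hmem_z), h2]
  have f2 : f (z₀ + (w.im + σ) • (I * dir θ), θ) = f (z', θ) := by
    have h1 : z₀ + (w.im + σ) • (I * dir θ) + w.re • dir θ =
        z₀ + (w * dir θ + σ • (I * dir θ)) := by
      have := dir_expand z₀ w θ
      rw [← add_assoc, this, add_smul]
      ring
    rw [hI.free _ θ w.re hmem_ts (by rw [h1]; exact hmem_zs), h1]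
    have h2 : z' + (b * (1 - Real.cos h)) • dir θ = z₀ + (w * dir θ + σ • (I * dir θ)) := by
      have h3 := minus_formula (z₀ + w * dir θ) θ b h
      rw [hsin] at h3
      have h4 : z' = z₀ + w * dir θ + b • (dir (θ + h) - dir θ) := by
        rw [hz', smul_sub]; ring
      rw [h4, h3]
      simp only [real_smul]
      push_cast
      ring
    rw [hI.free z' θ (b * (1 - Real.cos h)) (by rw [ez']; exact hmem_z')
      (by rw [h2]; exact hmem_zs), h2]
  have f3 : f (z', θ + h) = f (a, θ + h) := by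
    have h1 : a + b • dir (θ + h) = z' := by rw [ha, hz']; ring
    rw [hI.free a (θ + h) b (by rw [ea]; exact hmem_a) (by rw [h1, ez']; exact hmem_z'), h1]
  rw [f1, f2]
  unfold FF
  simp only
  rw [← ENNReal.ofReal_add (by positivity) (by positivity), ← ENNReal.ofReal_mul (by positivity)]
  apply ENNReal.ofReal_le_ofReal
  have h5 : |f (z', θ) - f (a, θ)| ≤ |f (z', θ + h) - f (z', θ)| + |f (a, θ + h) - f (a, θ)| := by
    rw [f3]
    have := abs_sub_le (f (z', θ)) (f (a, θ + h)) (f (a, θ))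
    rw [abs_sub_comm (f (z', θ)) (f (a, θ + h))] at this
    exact this
  calc |f (z', θ) - f (a, θ)| ^ q ≤
      (|f (z', θ + h) - f (z', θ)| + |f (a, θ + h) - f (a, θ)|) ^ q :=
        Real.rpow_le_rpow (abs_nonneg _) h5 (by linarith)
    _ ≤ _ := rpow_add_bound (abs_nonneg _) (abs_nonneg _) (by linarith)

end main

theorem t_APX : Pool.Agent.Q75.BS.S_APX := by
  intro n p hp f hfm hI q ε C r hq hε hC hMod i z₀ θ₀ b κ hb hball1 hball2 hsd hθ
  have hpi := Real.pi_gt_three
  have hpi4 := Real.pi_le_four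
  refine ⟨b / 4 * min 1 b, 2 ^ (q + 1) * C * ((π / 2) / b) ^ (1 + ε) / (2 * b), by positivity,
    fun σ hσ0 hσ1 => ?_⟩
  set h := Real.arcsin (σ / b) with hh
  have hσb : σ < b / 4 := by
    have : b / 4 * min 1 b ≤ b / 4 * 1 := by gcongr; exact min_le_left _ _
    linarith
  have hσbb : σ < b / 4 * b := by
    have : b / 4 * min 1 b ≤ b / 4 * b := by gcongr; exact min_le_right _ _
    linarith
  have hy0 : 0 < σ / b := by positivity
  have hy1 : σ / b < 1 / 4 := by rw [div_lt_iff₀ hb]; linarith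
  have hyb : σ / b < b / 4 := by rw [div_lt_iff₀ hb]; exact hσbb
  have hsin' : Real.sin h = σ / b := Real.sin_arcsin (by linarith) (by linarith)
  have hsin : b * Real.sin h = σ := by rw [hsin']; field_simp
  have hh0 : 0 < h := Real.arcsin_pos.2 hy0
  have hh2 : h ≤ π / 2 := Real.arcsin_le_pi_div_two _
  have hjor : h ≤ π / 2 * (σ / b) := by
    have := Real.mul_le_sin hh0.le hh2
    rw [hsin'] at this
    have h3 : π / 2 * (2 / π * h) ≤ π / 2 * (σ / b) := by gcongr
    have h4 : π / 2 * (2 / π * h) = h := by field_simp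
    linarith
  have hh1 : h < 1 := by nlinarith
  have hhb : h < b := by nlinarith
  have hM := hMod i h hh0 hh1
  have hM' : ∫⁻ x in DD p i r h, FF f q h x ≤ ENNReal.ofReal (C * h ^ (1 + ε)) := hM
  rw [← HH_int hp hfm i q r h] at hM'
  -- slice estimate
  have hsl : ∀ θ ∈ Ioo (θ₀ - b) (θ₀ + b),
      ENNReal.ofReal (2 * b) * ∫⁻ t in Ioo (-b) b,
        ENNReal.ofReal (|f (z₀ + (t + σ) • (I * dir θ), θ) - f (z₀ + t • (I * dir θ), θ)| ^ q) ≤
      ENNReal.ofReal (2 ^ (q + 1)) * HH p f i q r h θ := by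
    intro θ hθm
    have hθa : |θ - θ₀| < b := by rw [abs_lt]; constructor <;> linarith [hθm.1, hθm.2]
    have hΦ : Measurable fun t : ℝ =>
        ENNReal.ofReal (|f (z₀ + (t + σ) • (I * dir θ), θ) - f (z₀ + t • (I * dir θ), θ)| ^ q) := by
      apply ENNReal.measurable_ofReal.comp
      apply Measurable.pow_const
      apply Measurable.abs
      apply Measurable.sub
      · exact hfm.comp (Measurable.prodMk (by fun_prop) measurable_const)
      · exact hfm.comp (Measurable.prodMk (by fun_prop) measurable_const)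
    rw [← sq_int b hb _ hΦ]
    -- membership
    have hmemD : ∀ v : ℂ, ‖v‖ < 4 * b → (z₀ + v, θ) ∈ DD p i r h := by
      intro v hv
      have hvb : z₀ + v ∈ Metric.ball z₀ (4 * b) := by
        rw [Metric.mem_ball, dist_eq_norm, add_sub_cancel_left]
        exact hv
      refine ⟨?_, ?_, hθ θ hθa, ?_⟩
      · rw [region_eq hp]
        exact hball1 hvb
      · have := hball2 hvb
        rwa [Metric.mem_ball, dist_eq_norm] at this
      · have h1 := hsd _ hvb θ (by linarith)
        have h2 := hsd _ hvb (θ + h) (by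
          rw [abs_lt] at hθa ⊢
          constructor <;> linarith)
        have h3 := mul_pos h1 h2
        have h4 : κ * sd p i (z₀ + v, θ) * (κ * sd p i (z₀ + v, θ + h)) =
            κ ^ 2 * (sd p i (z₀ + v, θ) * sd p i (z₀ + v, θ + h)) := by ring
        rw [h4] at h3
        exact (pos_iff_pos_of_mul_pos h3).1 (by
          by_contra hcon
          push Not at hcon
          have : κ ^ 2 = 0 := le_antisymm hcon (sq_nonneg κ)
          rw [this, zero_mul] at h3
          exact lt_irrefl _ h3)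
    have hnd : ∀ a : ℝ, ‖dir a‖ = 1 := norm_dir
    have hnw : ∀ w ∈ Sq b, ‖w * dir θ‖ ≤ 3 / 2 * b := by
      rintro w ⟨⟨hr1, hr2⟩, hi1, hi2⟩
      rw [norm_mul, hnd, mul_one]
      have hre : |w.re| < b := abs_lt.2 ⟨by linarith, hr2⟩
      have him : |w.im| < b := abs_lt.2 ⟨by linarith, hi2⟩
      rw [← Real.sqrt_sq (by positivity : (0 : ℝ) ≤ 3 / 2 * b), Complex.norm_eq_sqrt_sq_add_sq]
      apply Real.sqrt_le_sqrt
      have e1 : w.re ^ 2 ≤ b ^ 2 := by rw [← sq_abs]; gcongr
      have e2 : w.im ^ 2 ≤ b ^ 2 := by rw [← sq_abs w.im]; gcongr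
      nlinarith [sq_nonneg b]
    have hnb : ∀ a : ℝ, ‖b • dir a‖ = b := by
      intro a
      rw [norm_smul, hnd, mul_one, Real.norm_eq_abs, abs_of_pos hb]
    have m1 : ∀ w ∈ Sq b, ((z₀ - b • dir θ + b • dir (θ + h)) + w * dir θ, θ) ∈ DD p i r h := by
      intro w hw
      have e : (z₀ - b • dir θ + b • dir (θ + h)) + w * dir θ =
          z₀ + (w * dir θ - b • dir θ + b • dir (θ + h)) := by ring
      rw [e]
      apply hmemD
      have h1 := norm_sub_le (w * dir θ) (b • dir θ)
      have h3 := norm_add_le (w * dir θ - b • dir θ) (b • dir (θ + h))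
      rw [hnb] at h1 h3
      linarith [hnw w hw]
    have m2 : ∀ w ∈ Sq b, ((z₀ - b • dir θ) + w * dir θ, θ) ∈ DD p i r h := by
      intro w hw
      have e : (z₀ - b • dir θ) + w * dir θ = z₀ + (w * dir θ - b • dir θ) := by ring
      rw [e]
      apply hmemD
      have h1 := norm_sub_le (w * dir θ) (b • dir θ)
      rw [hnb] at h1
      linarith [hnw w hw]
    have mF : ∀ c : ℂ, Measurable fun w : ℂ => FF f q h (c + w * dir θ, θ) := by
      intro c
      exact (FF_meas hfm q h).comp (Measurable.prodMk (by fun_prop) measurable_const)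
    calc ∫⁻ w in Sq b, ENNReal.ofReal
          (|f (z₀ + (w.im + σ) • (I * dir θ), θ) - f (z₀ + w.im • (I * dir θ), θ)| ^ q)
        ≤ ∫⁻ w in Sq b, ENNReal.ofReal (2 ^ q) *
          (FF f q h ((z₀ - b • dir θ + b • dir (θ + h)) + w * dir θ, θ) +
            FF f q h ((z₀ - b • dir θ) + w * dir θ, θ)) := by
          apply setLIntegral_mono' (Sq_meas b)
          intro w hw
          exact ptw hp hI hq hb hσ0 hσb hsin hball1 θ hw
      _ = ENNReal.ofReal (2 ^ q) *
          ((∫⁻ w in Sq b, FF f q h ((z₀ - b • dir θ + b • dir (θ + h)) + w * dir θ, θ)) +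
            ∫⁻ w in Sq b, FF f q h ((z₀ - b • dir θ) + w * dir θ, θ)) := by
          rw [← lintegral_add_left (mF _)]
          exact lintegral_const_mul _ ((mF _).add (mF _))
      _ ≤ ENNReal.ofReal (2 ^ q) * (HH p f i q r h θ + HH p f i q r h θ) := by
          gcongr
          · exact sq_le hp hfm i q r h θ b _ m1
          · exact sq_le hp hfm i q r h θ b _ m2
      _ = ENNReal.ofReal (2 ^ (q + 1)) * HH p f i q r h θ := by
          rw [← two_mul, ← mul_assoc]
          congr 1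
          rw [Real.rpow_add (by norm_num), Real.rpow_one, ENNReal.ofReal_mul (by positivity)]
          simp
  have h2b : (0 : ℝ) < 2 * b := by positivity
  -- combine
  have hsl' : ∀ θ ∈ Ioo (θ₀ - b) (θ₀ + b), ∫⁻ t in Ioo (-b) b,
        ENNReal.ofReal (|f (z₀ + (t + σ) • (I * dir θ), θ) - f (z₀ + t • (I * dir θ), θ)| ^ q) ≤
      ENNReal.ofReal (2 ^ (q + 1) / (2 * b)) * HH p f i q r h θ := by
    intro θ hθm
    have h1 := hsl θ hθm
    have h2 : ENNReal.ofReal (1 / (2 * b)) * ENNReal.ofReal (2 * b) = 1 := by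
      rw [← ENNReal.ofReal_mul (by positivity)]
      rw [one_div, inv_mul_cancel₀ h2b.ne', ENNReal.ofReal_one]
    calc _ = ENNReal.ofReal (1 / (2 * b)) * (ENNReal.ofReal (2 * b) * ∫⁻ t in Ioo (-b) b,
        ENNReal.ofReal (|f (z₀ + (t + σ) • (I * dir θ), θ) -
          f (z₀ + t • (I * dir θ), θ)| ^ q)) := by
          rw [← mul_assoc, h2, one_mul]
      _ ≤ ENNReal.ofReal (1 / (2 * b)) * (ENNReal.ofReal (2 ^ (q + 1)) * HH p f i q r h θ) := by
          gcongr
      _ = _ := by
          rw [← mul_assoc, ← ENNReal.ofReal_mul (by positivity)]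
          congr 2
          ring
  calc _ ≤ ∫⁻ θ in Ioo (θ₀ - b) (θ₀ + b), ENNReal.ofReal (2 ^ (q + 1) / (2 * b)) *
        HH p f i q r h θ := setLIntegral_mono' measurableSet_Ioo hsl'
    _ = ENNReal.ofReal (2 ^ (q + 1) / (2 * b)) *
        ∫⁻ θ in Ioo (θ₀ - b) (θ₀ + b), HH p f i q r h θ :=
        lintegral_const_mul _ (HH_meas hp hfm i q r h)
    _ ≤ ENNReal.ofReal (2 ^ (q + 1) / (2 * b)) * ∫⁻ θ, HH p f i q r h θ := by
        gcongr
        exact Measure.restrict_le_self
    _ ≤ ENNReal.ofReal (2 ^ (q + 1) / (2 * b)) * ENNReal.ofReal (C * h ^ (1 + ε)) := by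
        gcongr
    _ ≤ _ := by
        rw [← ENNReal.ofReal_mul (by positivity)]
        apply ENNReal.ofReal_le_ofReal
        have h6 : h ^ (1 + ε) ≤ ((π / 2) / b) ^ (1 + ε) * σ ^ (1 + ε) := by
          rw [← Real.mul_rpow (by positivity) hσ0.le]
          apply Real.rpow_le_rpow hh0.le _ (by linarith)
          calc h ≤ π / 2 * (σ / b) := hjor
            _ = π / 2 / b * σ := by ring
        calc 2 ^ (q + 1) / (2 * b) * (C * h ^ (1 + ε)) ≤
            2 ^ (q + 1) / (2 * b) * (C * (((π / 2) / b) ^ (1 + ε) * σ ^ (1 + ε))) := by gcongr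
          _ = _ := by ring

end Pool.Agent.Q237.BS
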