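import Pool.Agent.Q237.BS.APX

set_option autoImplicit false

/-!
Job BS-MOD of project BS (helper75): the modulus condition implies limits near the vertices.
-/

namespace Pool.Agent.Q237.BS

open Complex Set MeasureTheory Filter Topology Pool.Agent.W780.PG Pool.Agent.W780.BB
open Pool.Agent.TH103.BL Pool.Agent.Q75.BS

open scoped Real ENNReal ComplexConjugate

variable {n : ℕ} {p : Fin (n + 3) → ℂ}

theorem im_qmp : Measure.QuasiMeasurePreserving (fun w : ℂ => w.im) := by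
  have h1 := Complex.volume_preserving_equiv_real_prod.quasiMeasurePreserving
  have h2 : Measure.QuasiMeasurePreserving (Prod.snd : ℝ × ℝ → ℝ)
      ((volume : Measure ℝ).prod (volume : Measure ℝ)) volume :=
    Measure.quasiMeasurePreserving_snd
  exact h2.comp h1

theorem dir_neg_mul (θ : ℝ) : dir (-θ) * dir θ = 1 := by
  rw [← dir_add, neg_add_cancel]
  unfold dir
  simp

/-- the local step, first half: the seminorm is finite for almost every direction -/
theorem loc_fin {f : ℂ × ℝ → ℝ} (hfm : Measurable f) {q ε b s₀ C' θ₀ : ℝ} {z₀ : ℂ}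
    (hε : 0 < ε) (hs₀ : 0 < s₀)
    (hA : ∀ σ : ℝ, 0 < σ → σ < s₀ →
      ∫⁻ θ in Ioo (θ₀ - b) (θ₀ + b), ∫⁻ t in Ioo (-b) b,
        ENNReal.ofReal (|f (z₀ + (t + σ) • (I * dir θ), θ) - f (z₀ + t • (I * dir θ), θ)| ^ q) ≤
          ENNReal.ofReal (C' * σ ^ (1 + ε))) :
    ∀ᵐ θ : ℝ, θ ∈ Ioo (θ₀ - b) (θ₀ + b) →
      ∫⁻ σ in Ioo 0 s₀, ENNReal.ofReal (σ ^ (-(2 + ε / 2))) * (∫⁻ t in Ioo (-b) b,
        ENNReal.ofReal (|f (z₀ + (t + σ) • (I * dir θ), θ) -
          f (z₀ + t • (I * dir θ), θ)| ^ q)) < ⊤ := by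
  set G : ℝ × ℝ → ENNReal := fun x => ∫⁻ t in Ioo (-b) b,
        ENNReal.ofReal (|f (z₀ + (t + x.2) • (I * dir x.1), x.1) -
          f (z₀ + t • (I * dir x.1), x.1)| ^ q) with hG
  have hcd := continuous_dir
  have hGm : Measurable G := by
    have : Measurable fun y : (ℝ × ℝ) × ℝ =>
        ENNReal.ofReal (|f (z₀ + (y.2 + y.1.2) • (I * dir y.1.1), y.1.1) -
          f (z₀ + y.2 • (I * dir y.1.1), y.1.1)| ^ q) := by
      apply ENNReal.measurable_ofReal.comp
      apply Measurable.pow_const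
      apply Measurable.abs
      apply Measurable.sub
      · refine hfm.comp (Measurable.prodMk (Continuous.measurable ?_) (by fun_prop))
        fun_prop
      · refine hfm.comp (Measurable.prodMk (Continuous.measurable ?_) (by fun_prop))
        fun_prop
    exact this.lintegral_prod_right' (ν := volume.restrict (Ioo (-b) b))
  set K : ℝ × ℝ → ENNReal := fun x => ENNReal.ofReal (x.2 ^ (-(2 + ε / 2))) * G x with hK
  have hKm : Measurable K := by
    rw [hK]
    exact (ENNReal.measurable_ofReal.comp (measurable_snd.pow_const _)).mul hGm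
  have hfin : ∫⁻ θ in Ioo (θ₀ - b) (θ₀ + b), ∫⁻ σ in Ioo 0 s₀, K (θ, σ) < ⊤ := by
    rw [lintegral_lintegral_swap (f := fun θ σ => K (θ, σ)) hKm.aemeasurable]
    have h1 : ∀ σ ∈ Ioo 0 s₀, ∫⁻ θ in Ioo (θ₀ - b) (θ₀ + b), K (θ, σ) ≤
        ENNReal.ofReal (C' * σ ^ (-1 + ε / 2)) := by
      intro σ hσ
      have hGs : Measurable fun θ : ℝ => G (θ, σ) := hGm.comp (measurable_id.prodMk measurable_const)
      have h2 : ∫⁻ θ in Ioo (θ₀ - b) (θ₀ + b), K (θ, σ) =
          ENNReal.ofReal (σ ^ (-(2 + ε / 2))) * ∫⁻ θ in Ioo (θ₀ - b) (θ₀ + b), G (θ, σ) := by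
        simp only [hK]
        exact lintegral_const_mul _ hGs
      rw [h2]
      calc _ ≤ ENNReal.ofReal (σ ^ (-(2 + ε / 2))) * ENNReal.ofReal (C' * σ ^ (1 + ε)) := by
            gcongr
            exact hA σ hσ.1 hσ.2
        _ = _ := by
            have hσ0 : 0 < σ := hσ.1
            rw [← ENNReal.ofReal_mul (by positivity)]
            congr 1
            rw [mul_left_comm, ← Real.rpow_add hσ0]
            congr 2
            ring
    refine lt_of_le_of_lt (setLIntegral_mono' measurableSet_Ioo h1) ?_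
    have h3 : IntegrableOn (fun σ : ℝ => σ ^ (-1 + ε / 2)) (Ioo 0 s₀) :=
      (intervalIntegral.integrableOn_Ioo_rpow_iff hs₀).2 (by linarith)
    exact (Integrable.const_mul h3 C').lintegral_lt_top
  have hae := ae_lt_top (μ := volume.restrict (Ioo (θ₀ - b) (θ₀ + b)))
    (f := fun θ => ∫⁻ σ in Ioo 0 s₀, K (θ, σ))
    (hKm.lintegral_prod_right' (ν := volume.restrict (Ioo 0 s₀))) hfin.ne
  rw [ae_restrict_iff' measurableSet_Ioo] at hae
  exact hae

/-- the local step, second half -/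
theorem loc_lim (hO : S_ONE) (hp : IsConvexPolygon p) {f : ℂ × ℝ → ℝ} (hfm : Measurable f)
    (hfb : ∀ x, |f x| ≤ 2) (hI : IsInvariantFun p f) {q ε b s₀ : ℝ} {z₀ : ℂ} (hq : 1 ≤ q)
    (hε : 0 < ε) (hb : 0 < b) (hs₀ : 0 < s₀) (hball : Metric.ball z₀ (4 * b) ⊆ reg p) (θ : ℝ)
    (hfin : ∫⁻ σ in Ioo 0 s₀, ENNReal.ofReal (σ ^ (-(2 + ε))) * (∫⁻ t in Ioo (-b) b,
        ENNReal.ofReal (|f (z₀ + (t + σ) • (I * dir θ), θ) -
          f (z₀ + t • (I * dir θ), θ)| ^ q)) < ⊤) :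
    ∀ z ∈ Metric.ball z₀ (b / 2), ∃ c, Lim (sli f θ) z c := by
  set φ : ℝ → ℝ := fun t => f (z₀ + t • (I * dir θ), θ) with hφ
  have hφm : Measurable φ := by
    rw [hφ]
    exact hfm.comp (Measurable.prodMk (by fun_prop) measurable_const)
  obtain ⟨ψ, hψc, hψae⟩ := hO φ q ε b s₀ hφm (fun t => hfb _) hq hε hb hs₀ hfin
  set W : ℂ → ℂ := fun z' => -z₀ * dir (-θ) + z' * dir (-θ) with hW
  have hWc : Continuous W := by rw [hW]; fun_prop
  have hW1 : ∀ z', z₀ + W z' * dir θ = z' := by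
    intro z'
    have : W z' * dir θ = (z' - z₀) * (dir (-θ) * dir θ) := by simp only [hW]; ring
    rw [this, dir_neg_mul]
    ring
  have hW2 : ∀ z', ‖W z'‖ = ‖z' - z₀‖ := by
    intro z'
    have : W z' = (z' - z₀) * dir (-θ) := by simp only [hW]; ring
    rw [this, norm_mul, norm_dir, mul_one]
  have hnull : ∀ᵐ z' : ℂ, (W z').im ∈ Icc (-(b / 2)) (b / 2) → φ (W z').im = ψ (W z').im := by
    have h1 := im_qmp.ae hψae
    exact (mp_rigid (-θ) (-z₀ * dir (-θ))).quasiMeasurePreserving.ae h1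
  have him : ∀ z' ∈ Metric.ball z₀ (b / 2), |(W z').im| < b / 2 := by
    intro z' hz'
    rw [Metric.mem_ball, dist_eq_norm] at hz'
    exact lt_of_le_of_lt (abs_im_le_norm _) (by rw [hW2]; exact hz')
  have hfree : ∀ z' ∈ Metric.ball z₀ (b / 2), f (z', θ) = φ (W z').im := by
    intro z' hz'
    have h1 := him z' hz'
    have h2 : z₀ + (W z').im • (I * dir θ) ∈ region p := by
      rw [region_eq hp]
      apply hball
      rw [Metric.mem_ball, dist_eq_norm, add_sub_cancel_left, norm_smul, norm_mul, norm_I,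
        norm_dir, Real.norm_eq_abs]
      linarith
    have h3 : z' ∈ region p := by
      rw [region_eq hp]
      exact hball (Metric.ball_subset_ball (by linarith) hz')
    have h4 : z₀ + (W z').im • (I * dir θ) + (W z').re • dir θ = z' := by
      rw [← dir_expand, hW1]
    have h5 := hI.free _ θ (W z').re h2 (by rw [h4]; exact h3)
    rw [h4] at h5
    exact h5.symm
  intro z hz
  refine ⟨ψ (W z).im, fun η hη => ?_⟩
  have hcz : ContinuousAt (fun z' => ψ (W z').im) z := by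
    have h1 := him z hz
    rw [abs_lt] at h1
    have h2 : ContinuousAt ψ (W z).im :=
      hψc.continuousAt (Icc_mem_nhds h1.1 h1.2)
    have h3 : ContinuousAt (fun z' => (W z').im) z := (continuous_im.comp hWc).continuousAt
    exact ContinuousAt.comp (f := fun z' => (W z').im) h2 h3
  have h6 : ∀ᶠ z' in 𝓝 z, |ψ (W z').im - ψ (W z).im| < η := by
    have := Metric.continuousAt_iff'.1 hcz η hη
    simpa [Real.dist_eq] using this
  have h7 : ∀ᶠ z' in 𝓝 z, z' ∈ Metric.ball z₀ (b / 2) := Metric.isOpen_ball.mem_nhds hz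
  obtain ⟨ρ, hρ, hρ2⟩ := Metric.eventually_nhds_iff.1 (h6.and h7)
  refine ⟨ρ, hρ, ?_⟩
  filter_upwards [hnull] with z' hz' hd
  obtain ⟨h8, h9⟩ := hρ2 (y := z') (by rw [dist_eq_norm]; exact hd)
  have h10 := him z' h9
  rw [abs_lt] at h10
  have h11 : sli f θ z' = ψ (W z').im := by
    show f (z', θ) = _
    rw [hfree z' h9]
    exact hz' ⟨h10.1.le, h10.2.le⟩
  rw [h11]
  exact h8.le

theorem sd_periodic (i : Fin (n + 3)) (z : ℂ) (θ : ℝ) :
    sd p i (z, θ + 2 * π) = sd p i (z, θ) := by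
  unfold sd
  simp only
  rw [dir_periodic]

theorem t_MOD (hA : S_APX) (hO : S_ONE) : S_MOD := by
  intro n p hp f hfm hfb hI q ε C r hq hε hC hr hMod
  set zs : ℕ → ℂ := TopologicalSpace.denseSeq ℂ with hzs
  set ts : ℕ → ℝ := TopologicalSpace.denseSeq ℝ with hts
  set P : ℝ → Prop := fun θ => ∀ z ∈ reg p, ∀ i, ‖z - p i‖ < r → sd p i (z, θ) ≠ 0 →
    ∃ c, Lim (sli f θ) z c with hP
  have hall : ∀ᵐ θ : ℝ, ∀ (i : Fin (n + 3)) (k l m : ℕ) (κ : Bool),
      (Metric.ball (zs k) (4 * (1 / ((m : ℝ) + 1))) ⊆ reg p) →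
      (Metric.ball (zs k) (4 * (1 / ((m : ℝ) + 1))) ⊆ Metric.ball (p i) r) →
      (∀ z ∈ Metric.ball (zs k) (4 * (1 / ((m : ℝ) + 1))), ∀ θ' : ℝ,
        |θ' - ts l| < 4 * (1 / ((m : ℝ) + 1)) → 0 < (if κ then (1 : ℝ) else -1) * sd p i (z, θ')) →
      (∀ θ' : ℝ, |θ' - ts l| < 1 / ((m : ℝ) + 1) → θ' ∈ Ico 0 (2 * π)) →
      θ ∈ Ioo (ts l - 1 / ((m : ℝ) + 1)) (ts l + 1 / ((m : ℝ) + 1)) →
      ∀ z ∈ Metric.ball (zs k) (1 / ((m : ℝ) + 1) / 2), ∃ c, Lim (sli f θ) z c := by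
    simp only [ae_all_iff]
    intro i k l m κ h1 h2 h3 h4
    have hb : (0 : ℝ) < 1 / ((m : ℝ) + 1) := by positivity
    obtain ⟨s₀, C', hs₀, hAP⟩ := hA n p hp f hfm hI q ε C r hq hε hC hMod i (zs k) (ts l)
      (1 / ((m : ℝ) + 1)) (if κ then (1 : ℝ) else -1) hb h1 h2 h3 h4
    filter_upwards [loc_fin hfm hε hs₀ hAP] with θ hθ hθm
    exact loc_lim hO hp hfm hfb hI hq (by linarith : 0 < ε / 2) hb hs₀ h1 θ (hθ hθm)
  have hIoo : ∀ᵐ θ : ℝ, θ ∈ Ioo 0 (2 * π) → P θ := by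
    filter_upwards [hall] with θ hθ hθm z hz i hzi hsd
    obtain ⟨κ, hκ⟩ : ∃ κ : Bool, 0 < (if κ then (1 : ℝ) else -1) * sd p i (z, θ) := by
      rcases lt_or_gt_of_ne hsd with h | h
      · refine ⟨false, ?_⟩
        simp only [Bool.false_eq_true, if_false]
        linarith
      · refine ⟨true, ?_⟩
        simp only [if_true]
        linarith
    have hU : IsOpen {x : ℂ × ℝ | (x.1 ∈ reg p ∧ x.1 ∈ Metric.ball (p i) r) ∧
        (x.2 ∈ Ioo 0 (2 * π) ∧ 0 < (if κ then (1 : ℝ) else -1) * sd p i x)} := by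
      refine (IsOpen.inter ((reg_open hp).preimage continuous_fst)
        (Metric.isOpen_ball.preimage continuous_fst)).inter
        ((isOpen_Ioo.preimage continuous_snd).inter ?_)
      exact isOpen_lt continuous_const (continuous_const.mul (sd_cont p i))
    have hmem : (z, θ) ∈ {x : ℂ × ℝ | (x.1 ∈ reg p ∧ x.1 ∈ Metric.ball (p i) r) ∧
        (x.2 ∈ Ioo 0 (2 * π) ∧ 0 < (if κ then (1 : ℝ) else -1) * sd p i x)} := by
      refine ⟨⟨hz, ?_⟩, hθm, hκ⟩
      rw [Metric.mem_ball, dist_eq_norm]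
      exact hzi
    obtain ⟨δ, hδ, hball⟩ := Metric.isOpen_iff.1 hU _ hmem
    obtain ⟨m, hm⟩ := exists_nat_one_div_lt (show (0 : ℝ) < δ / 5 by positivity)
    set b : ℝ := 1 / ((m : ℝ) + 1) with hb
    have hb0 : 0 < b := by positivity
    obtain ⟨k, hk⟩ := (TopologicalSpace.denseRange_denseSeq ℂ).exists_dist_lt z
      (show 0 < b / 2 by positivity)
    obtain ⟨l, hl⟩ := (TopologicalSpace.denseRange_denseSeq ℝ).exists_dist_lt θ hb0
    have hin : ∀ z' θ', dist z' (zs k) < 4 * b → |θ' - ts l| < 4 * b →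
        (z', θ') ∈ Metric.ball (z, θ) δ := by
      intro z' θ' h1 h2
      rw [Metric.mem_ball, Prod.dist_eq, max_lt_iff]
      constructor
      · calc dist z' z ≤ dist z' (zs k) + dist (zs k) z := dist_triangle _ _ _
          _ < δ := by rw [dist_comm (zs k) z]; linarith
      · calc dist θ' θ ≤ dist θ' (ts l) + dist (ts l) θ := dist_triangle _ _ _
          _ < δ := by rw [dist_comm (ts l) θ, Real.dist_eq θ' (ts l)]; linarith
    refine hθ i k l m κ ?_ ?_ ?_ ?_ ?_ z ?_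
    · intro z' hz'
      exact (hball (hin z' (ts l) hz' (by simp; positivity))).1.1
    · intro z' hz'
      exact (hball (hin z' (ts l) hz' (by simp; positivity))).1.2
    · intro z' hz' θ' hθ'
      exact (hball (hin z' θ' hz' hθ')).2.2
    · intro θ' hθ'
      have := (hball (hin (zs k) θ' (by simp; positivity) (by linarith))).2.1
      exact ⟨this.1.le, this.2⟩
    · rw [Real.dist_eq, abs_lt] at hl
      constructor
      · linarith [hl.1]
      · linarith [hl.2]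
    · rw [Metric.mem_ball]
      exact hk
  have hper : Function.Periodic P (2 * π) := by
    intro θ
    apply propext
    have e1 : sli f (θ + 2 * π) = sli f θ := by
      funext z
      exact hI.periodic z θ
    simp only [hP, e1, sd_periodic]
  have hIco : ∀ᵐ θ : ℝ, θ ∈ Ico 0 (2 * π) → P θ := by
    have h0 : ∀ᵐ θ : ℝ, θ ≠ 0 := Measure.ae_ne volume 0
    filter_upwards [hIoo, h0] with θ h1 h2 h3
    exact h1 ⟨lt_of_le_of_ne h3.1 (Ne.symm h2), h3.2⟩
  have hsh : ∀ᵐ θ : ℝ, ∀ k : ℤ, θ + k • (2 * π) ∈ Ico 0 (2 * π) → P (θ + k • (2 * π)) := by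
    rw [ae_all_iff]
    intro k
    exact (measurePreserving_add_right (volume : Measure ℝ) (k • (2 * π))).quasiMeasurePreserving.ae
      hIco
  show ∀ᵐ θ : ℝ, P θ
  filter_upwards [hsh] with θ hθ
  obtain ⟨k, hk, -⟩ := existsUnique_add_zsmul_mem_Ico Real.two_pi_pos θ 0
  rw [zero_add] at hk
  have h1 := hθ k hk
  rwa [hper.zsmul k θ] at h1

end Pool.Agent.Q237.BS
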