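import Pool.Agent.Q75.BS.Stm

set_option autoImplicit false

/-!
Job BS-ONE of project BS (helper75): a one-dimensional Campanato lemma.
-/

namespace Pool.Agent.Q237.BS

open MeasureTheory Set Filter Topology

open scoped Real ENNReal

/-- good scales -/
theorem good_scale (G : ℝ → ENNReal) (hG : Measurable G) {ε s₀ : ℝ} (hs₀ : 0 < s₀)
    (h : ∫⁻ σ in Ioo 0 s₀, ENNReal.ofReal (σ ^ (-(2 + ε))) * G σ < ⊤) :
    ∃ s : ℝ, 0 < s ∧ s < s₀ ∧ ∃ M : ℝ, 0 ≤ M ∧ ∀ k : ℕ,
      G (s / 2 ^ k) ≤ ENNReal.ofReal (M * (s / 2 ^ k) ^ (1 + ε)) := by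
  set F : ℝ → ENNReal := fun σ => ENNReal.ofReal (σ ^ (-(2 + ε))) * G σ with hF
  have hFm : Measurable F := by
    rw [hF]
    exact (ENNReal.measurable_ofReal.comp (measurable_id.pow_const _)).mul hG
  set I : ℕ → Set ℝ := fun k => Ioo (s₀ / 2 ^ (k + 1)) (s₀ / 2 ^ k) with hI
  have hanti : Antitone fun k : ℕ => s₀ / 2 ^ k := by
    intro a b hab
    show s₀ / 2 ^ b ≤ s₀ / 2 ^ a
    exact div_le_div_of_nonneg_left hs₀.le (by positivity) (pow_le_pow_right₀ (by norm_num) hab)
  have hdis : Pairwise (Function.onFun Disjoint I) := hanti.pairwise_disjoint_on_Ioo_succ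
  have hsub : (⋃ k, I k) ⊆ Ioo 0 s₀ := by
    refine iUnion_subset fun k => ?_
    rintro x ⟨hx1, hx2⟩
    refine ⟨lt_trans (by positivity) hx1, lt_of_lt_of_le hx2 ?_⟩
    exact div_le_self hs₀.le (one_le_pow₀ (by norm_num))
  have hsum : ∑' k, ∫⁻ σ in I k, F σ < ⊤ := by
    rw [← lintegral_iUnion (fun k => measurableSet_Ioo) hdis]
    exact lt_of_le_of_lt (lintegral_mono_set hsub) h
  have hch : ∀ k : ℕ, ∫⁻ σ in I k, F σ =
      ∫⁻ s in I 0, ENNReal.ofReal (1 / 2 ^ k) * F (s / 2 ^ k) := by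
    intro k
    have hpos : (0 : ℝ) < 2 ^ k := by positivity
    have him : I k = (fun s : ℝ => s / 2 ^ k) '' I 0 := by
      ext x
      simp only [hI, mem_image, mem_Ioo]
      constructor
      · rintro ⟨h1, h2⟩
        refine ⟨x * 2 ^ k, ⟨?_, ?_⟩, by field_simp⟩
        · rw [div_lt_iff₀ (by positivity)] at h1 ⊢
          rw [pow_succ] at h1
          simpa [mul_assoc] using h1
        · rw [lt_div_iff₀ (by positivity)] at h2
          simpa using h2
      · rintro ⟨y, ⟨h1, h2⟩, rfl⟩
        constructor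
        · rw [pow_succ, mul_comm, ← div_div]
          apply div_lt_div_of_pos_right _ hpos
          simpa using h1
        · apply div_lt_div_of_pos_right _ hpos
          simpa using h2
    rw [him, lintegral_image_eq_lintegral_abs_deriv_mul (f' := fun _ => 1 / 2 ^ k)
      measurableSet_Ioo]
    · refine lintegral_congr fun s => ?_
      rw [abs_of_nonneg (by positivity)]
    · intro x _
      exact ((hasDerivAt_id x).div_const _).hasDerivWithinAt
    · intro x _ y _ hxy
      have : x / 2 ^ k = y / 2 ^ k := hxy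
      field_simp at this
      exact this
  have hfin : ∫⁻ s in I 0, ∑' k : ℕ, ENNReal.ofReal (1 / 2 ^ k) * F (s / 2 ^ k) < ⊤ := by
    rw [lintegral_tsum]
    · calc _ = ∑' k, ∫⁻ σ in I k, F σ := tsum_congr fun k => (hch k).symm
        _ < ⊤ := hsum
    · intro k
      exact ((hFm.comp (measurable_id.div_const _)).const_mul _).aemeasurable
  have hae := ae_lt_top' (μ := volume.restrict (I 0))
    (f := fun s => ∑' k : ℕ, ENNReal.ofReal (1 / 2 ^ k) * F (s / 2 ^ k))
    (AEMeasurable.ennreal_tsum fun k =>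
      ((hFm.comp (measurable_id.div_const _)).const_mul _).aemeasurable) hfin.ne
  rw [ae_restrict_iff' measurableSet_Ioo] at hae
  obtain ⟨s, hs1, hs2⟩ : ∃ s, s ∈ I 0 ∧ ∑' k : ℕ, ENNReal.ofReal (1 / 2 ^ k) * F (s / 2 ^ k) < ⊤ := by
    have hne : volume (I 0) ≠ 0 := by
      simp only [hI]
      rw [Real.volume_Ioo]
      simp only [zero_add, pow_one, pow_zero, div_one]
      rw [← pos_iff_ne_zero, ENNReal.ofReal_pos]
      linarith
    by_contra hcon
    push Not at hcon
    apply hne
    refine measure_mono_null ?_ (ae_iff.1 hae)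
    intro s hs
    simp only [mem_setOf_eq, not_forall]
    exact ⟨hs, not_lt.2 (hcon s hs)⟩
  have hsub0 := hsub (mem_iUnion.2 ⟨0, hs1⟩)
  have hs0 : 0 < s := hsub0.1
  set T := ∑' k : ℕ, ENNReal.ofReal (1 / 2 ^ k) * F (s / 2 ^ k) with hT
  refine ⟨s, hs0, hsub0.2, T.toReal * s, by positivity, fun k => ?_⟩
  have h1 : ENNReal.ofReal (1 / 2 ^ k) * F (s / 2 ^ k) ≤ T := by
    rw [hT]
    exact ENNReal.le_tsum k
  set x : ℝ := s / 2 ^ k with hx
  have hx0 : 0 < x := by positivity
  have h2 : ENNReal.ofReal (1 / 2 ^ k) * F x =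
      ENNReal.ofReal (s⁻¹ * x ^ (-(1 + ε))) * G x := by
    simp only [hF]
    rw [← mul_assoc, ← ENNReal.ofReal_mul (by positivity)]
    congr 2
    have : (1 : ℝ) / 2 ^ k = s⁻¹ * x := by rw [hx]; field_simp
    rw [this, mul_assoc]
    congr 1
    nth_rewrite 1 [← Real.rpow_one x]
    rw [← Real.rpow_add hx0]
    congr 1
    ring
  rw [h2] at h1
  have h3 : G x = ENNReal.ofReal (s * x ^ (1 + ε)) *
      (ENNReal.ofReal (s⁻¹ * x ^ (-(1 + ε))) * G x) := by
    rw [← mul_assoc, ← ENNReal.ofReal_mul (by positivity)]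
    have : s * x ^ (1 + ε) * (s⁻¹ * x ^ (-(1 + ε))) = 1 := by
      rw [Real.rpow_neg hx0.le]
      have : x ^ (1 + ε) ≠ 0 := (Real.rpow_pos_of_pos hx0 _).ne'
      field_simp
    rw [this, ENNReal.ofReal_one, one_mul]
  rw [h3]
  calc _ ≤ ENNReal.ofReal (s * x ^ (1 + ε)) * T := by gcongr
    _ = ENNReal.ofReal (T.toReal * s * x ^ (1 + ε)) := by
      nth_rewrite 1 [← ENNReal.ofReal_toReal hs2.ne]
      rw [← ENNReal.ofReal_mul (by positivity)]
      congr 1
      ring

/-- the primitive -/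
noncomputable def Pr (φ : ℝ → ℝ) (x : ℝ) : ℝ := ∫ t in (0 : ℝ)..x, φ t

/-- the averages -/
noncomputable def Av (φ : ℝ → ℝ) (s y : ℝ) : ℝ := (Pr φ (y + s) - Pr φ y) / s

section bd

variable {φ : ℝ → ℝ} (hφ : Measurable φ) (hb : ∀ t, |φ t| ≤ 2)

include hφ hb

theorem loc_int : LocallyIntegrable φ volume := by
  rw [locallyIntegrable_iff]
  intro K hK
  refine Measure.integrableOn_of_bounded (M := 2) hK.measure_lt_top.ne
    hφ.aestronglyMeasurable ?_
  exact ae_of_all _ fun t => by rw [Real.norm_eq_abs]; exact hb t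

theorem int_int (a b : ℝ) : IntervalIntegrable φ volume a b :=
  (loc_int hφ hb).integrableOn_isCompact (isCompact_uIcc) |>.intervalIntegrable

theorem cont_Pr : Continuous (Pr φ) :=
  intervalIntegral.continuous_primitive (int_int hφ hb) 0

theorem Av_diff {s : ℝ} (hs : 0 < s) (y : ℝ) :
    Av φ (2 * s) y - Av φ s y = (∫ t in y..(y + s), (φ (t + s) - φ t)) / (2 * s) := by
  have e1 : Pr φ (y + 2 * s) - Pr φ (y + s) = ∫ t in y..(y + s), φ (t + s) := by
    unfold Pr
    rw [intervalIntegral.integral_interval_sub_left (int_int hφ hb _ _) (int_int hφ hb _ _),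
      intervalIntegral.integral_comp_add_right (fun t => φ t) s]
    congr 1
    ring
  have e2 : Pr φ (y + s) - Pr φ y = ∫ t in y..(y + s), φ t := by
    unfold Pr
    rw [intervalIntegral.integral_interval_sub_left (int_int hφ hb _ _) (int_int hφ hb _ _)]
  have hi : IntervalIntegrable (fun t => φ (t + s)) volume y (y + s) :=
    int_int (hφ.comp (measurable_id.add_const s)) (fun t => hb _) _ _
  rw [intervalIntegral.integral_sub hi (int_int hφ hb _ _), ← e1, ← e2]
  unfold Av
  field_simp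
  ring

theorem Av_bound {q ε b M s : ℝ} (hq : 1 ≤ q) (hs : 0 < s) (hM : 0 ≤ M)
    (hG : ∫⁻ t in Ioo (-b) b, ENNReal.ofReal (|φ (t + s) - φ t| ^ q) ≤
      ENNReal.ofReal (M * s ^ (1 + ε))) {y : ℝ} (hy : Ioc y (y + s) ⊆ Ioo (-b) b) :
    |Av φ (2 * s) y - Av φ s y| ≤ (1 + M) * s ^ (ε / q) := by
  have hq0 : 0 < q := by linarith
  rw [Av_diff hφ hb hs]
  set D : ℝ → ℝ := fun t => φ (t + s) - φ t with hD
  have hDm : Measurable D := (hφ.comp (measurable_id.add_const s)).sub hφ
  have hDb : ∀ t, |D t| ≤ 4 := by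
    intro t
    have h1 := abs_le.1 (hb (t + s))
    have h2 := abs_le.1 (hb t)
    rw [abs_le]
    constructor <;> simp only [hD] <;> linarith
  set l : ℝ := s ^ (ε / q) with hl
  have hl0 : 0 < l := Real.rpow_pos_of_pos hs _
  have hpt : ∀ t, |D t| ≤ l + l ^ (1 - q) * |D t| ^ q := by
    intro t
    have hnn : 0 ≤ l ^ (1 - q) * |D t| ^ q := by positivity
    by_cases hc : |D t| ≤ l
    · linarith
    · push Not at hc
      have hDp : 0 < |D t| := hl0.trans hc
      have h1 : |D t| ^ (1 - q) ≤ l ^ (1 - q) :=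
        Real.rpow_le_rpow_of_nonpos hl0 hc.le (by linarith)
      have h2 : |D t| = |D t| ^ (1 - q) * |D t| ^ q := by
        rw [← Real.rpow_add hDp]
        simp
      have h3 : |D t| ^ (1 - q) * |D t| ^ q ≤ l ^ (1 - q) * |D t| ^ q := by gcongr
      linarith
  have hys : y ≤ y + s := by linarith
  have hqm : Measurable fun t => |D t| ^ q := (hDm.abs).pow_const q
  have hqb : ∀ t, |(|D t| ^ q)| ≤ 4 ^ q := by
    intro t
    rw [abs_of_nonneg (by positivity)]
    exact Real.rpow_le_rpow (abs_nonneg _) (hDb t) hq0.le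
  have hqi : IntervalIntegrable (fun t => |D t| ^ q) volume y (y + s) := by
    rw [intervalIntegrable_iff_integrableOn_Ioc_of_le hys]
    refine Measure.integrableOn_of_bounded (M := 4 ^ q) (by simp)
      hqm.aestronglyMeasurable ?_
    exact ae_of_all _ fun t => by rw [Real.norm_eq_abs]; exact hqb t
  have hDi : IntervalIntegrable (fun t => |D t|) volume y (y + s) := by
    rw [intervalIntegrable_iff_integrableOn_Ioc_of_le hys]
    refine Measure.integrableOn_of_bounded (M := 4) (by simp)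
      hDm.abs.aestronglyMeasurable ?_
    exact ae_of_all _ fun t => by rw [Real.norm_eq_abs, abs_abs]; exact hDb t
  have hI1 : ∫ t in y..(y + s), |D t| ^ q ≤ M * s ^ (1 + ε) := by
    rw [intervalIntegral.integral_of_le hys, integral_eq_lintegral_of_nonneg_ae
      (ae_of_all _ fun t => by positivity) hqm.aestronglyMeasurable]
    apply ENNReal.toReal_le_of_le_ofReal (by positivity)
    exact (lintegral_mono_set hy).trans hG
  have hI2 : |∫ t in y..(y + s), D t| ≤ l * s + l ^ (1 - q) * (M * s ^ (1 + ε)) := by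
    calc |∫ t in y..(y + s), D t| ≤ ∫ t in y..(y + s), |D t| :=
          intervalIntegral.abs_integral_le_integral_abs hys
      _ ≤ ∫ t in y..(y + s), (l + l ^ (1 - q) * |D t| ^ q) :=
          intervalIntegral.integral_mono_on hys hDi
            ((intervalIntegrable_const).add (hqi.const_mul _)) fun t _ => hpt t
      _ = l * s + l ^ (1 - q) * ∫ t in y..(y + s), |D t| ^ q := by
          rw [intervalIntegral.integral_add intervalIntegrable_const (hqi.const_mul _),
            intervalIntegral.integral_const, intervalIntegral.integral_const_mul]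
          simp [mul_comm]
      _ ≤ _ := by gcongr
  have hexp : l ^ (1 - q) * (M * s ^ (1 + ε)) = M * s * l := by
    rw [hl, ← Real.rpow_mul hs.le]
    have : s ^ (ε / q * (1 - q)) * (M * s ^ (1 + ε)) =
        M * (s ^ (ε / q * (1 - q)) * s ^ (1 + ε)) := by ring
    rw [this, ← Real.rpow_add hs, mul_assoc]
    congr 1
    nth_rewrite 2 [← Real.rpow_one s]
    rw [← Real.rpow_add hs]
    congr 1
    field_simp
    ring
  rw [abs_div, abs_of_pos (by positivity : (0 : ℝ) < 2 * s), div_le_iff₀ (by positivity)]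
  rw [hexp] at hI2
  refine hI2.trans ?_
  have h5 : 0 ≤ (1 + M) * l * s := by positivity
  nlinarith

end bd

theorem t_ONE : Pool.Agent.Q75.BS.S_ONE := by
  intro φ q ε b s₀ hφ hbd hq hε hb hs₀ hfin
  have hq0 : 0 < q := by linarith
  set G : ℝ → ENNReal := fun σ =>
    ∫⁻ t in Ioo (-b) b, ENNReal.ofReal (|φ (t + σ) - φ t| ^ q) with hGdef
  have hGm : Measurable G := by
    have : Measurable fun z : ℝ × ℝ => ENNReal.ofReal (|φ (z.2 + z.1) - φ z.2| ^ q) := by
      apply ENNReal.measurable_ofReal.comp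
      apply Measurable.pow_const
      apply Measurable.abs
      exact (hφ.comp (measurable_snd.add measurable_fst)).sub (hφ.comp measurable_snd)
    exact this.lintegral_prod_right' (ν := volume.restrict (Ioo (-b) b))
  have hm0 : 0 < min s₀ (b / 2) := lt_min hs₀ (by linarith)
  have hfin' : ∫⁻ σ in Ioo 0 (min s₀ (b / 2)), ENNReal.ofReal (σ ^ (-(2 + ε))) * G σ < ⊤ :=
    lt_of_le_of_lt (lintegral_mono_set (Ioo_subset_Ioo le_rfl (min_le_left _ _))) hfin
  obtain ⟨s, hs0, hs1, M, hM, hk⟩ := good_scale G hGm hm0 hfin'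
  have hsb : s < b / 2 := lt_of_lt_of_le hs1 (min_le_right _ _)
  set A : ℕ → ℝ → ℝ := fun k y => Av φ (s / 2 ^ k) y with hA
  set r : ℝ := 2 ^ (-(ε / q)) with hr
  have hr0 : 0 < r := Real.rpow_pos_of_pos (by norm_num) _
  have hr1 : r < 1 := by
    apply Real.rpow_lt_one_of_one_lt_of_neg (by norm_num)
    have : 0 < ε / q := by positivity
    linarith
  set K : ℝ := (1 + M) * s ^ (ε / q) with hK
  have hstep : ∀ y ∈ Icc (-(b / 2)) (b / 2), ∀ k, dist (A k y) (A (k + 1) y) ≤ K * r ^ k := by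
    intro y hy k
    have hx0 : 0 < s / 2 ^ (k + 1) := by positivity
    have hxs : s / 2 ^ (k + 1) ≤ s := div_le_self hs0.le (one_le_pow₀ (by norm_num))
    have hsub : Ioc y (y + s / 2 ^ (k + 1)) ⊆ Ioo (-b) b := by
      rintro x ⟨h1, h2⟩
      constructor
      · linarith [hy.1]
      · linarith [hy.2]
    have h1 := Av_bound hφ hbd hq hx0 hM (hk (k + 1)) hsub
    have h2 : 2 * (s / 2 ^ (k + 1)) = s / 2 ^ k := by
      rw [pow_succ]
      field_simp
    rw [h2] at h1
    rw [Real.dist_eq]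
    refine h1.trans ?_
    have h3 : (s / 2 ^ (k + 1)) ^ (ε / q) = s ^ (ε / q) * r ^ (k + 1) := by
      rw [div_eq_mul_inv, Real.mul_rpow hs0.le (by positivity), hr, ← Real.rpow_natCast,
        ← Real.rpow_natCast, ← Real.rpow_mul (by norm_num), Real.inv_rpow (by positivity),
        ← Real.rpow_mul (by norm_num), ← Real.rpow_neg (by norm_num)]
      congr 2
      ring
    rw [h3, pow_succ, hK]
    have h4 : (0 : ℝ) ≤ (1 + M) * s ^ (ε / q) * r ^ k := by positivity
    nlinarith
  have hlim : ∀ y ∈ Icc (-(b / 2)) (b / 2), ∃ l, Tendsto (fun k => A k y) atTop (𝓝 l) := by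
    intro y hy
    exact cauchySeq_tendsto_of_complete
      (cauchySeq_of_le_geometric r K hr1 (hstep y hy))
  classical
  set ψ : ℝ → ℝ := fun y => if h : ∃ l, Tendsto (fun k => A k y) atTop (𝓝 l) then h.choose else 0
    with hψ
  have hψl : ∀ y ∈ Icc (-(b / 2)) (b / 2), Tendsto (fun k => A k y) atTop (𝓝 (ψ y)) := by
    intro y hy
    have h := hlim y hy
    simp only [hψ, dif_pos h]
    exact h.choose_spec
  refine ⟨ψ, ?_, ?_⟩
  · have hu : TendstoUniformlyOn A ψ atTop (Icc (-(b / 2)) (b / 2)) := by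
      rw [Metric.tendstoUniformlyOn_iff]
      intro η hη
      have h1 : Tendsto (fun k : ℕ => K * r ^ k / (1 - r)) atTop (𝓝 (K * 0 / (1 - r))) :=
        ((tendsto_pow_atTop_nhds_zero_of_lt_one hr0.le hr1).const_mul K).div_const _
      rw [mul_zero, zero_div] at h1
      filter_upwards [h1.eventually_lt_const hη] with k hk y hy
      rw [dist_comm]
      exact (dist_le_of_le_geometric_of_tendsto r K hr1 (hstep y hy) (hψl y hy) k).trans_lt hk
    refine hu.continuousOn (Eventually.frequently (Eventually.of_forall fun k => ?_))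
    have hc := cont_Pr hφ hbd
    exact (((hc.comp (continuous_id.add continuous_const)).sub hc).div_const _).continuousOn
  · filter_upwards [_root_.LocallyIntegrable.ae_hasDerivAt_integral (loc_int hφ hbd)] with y hy hy2
    have h1 : HasDerivAt (Pr φ) (φ y) y := hy 0
    have h2 := h1.tendsto_slope_zero
    have h3 : Tendsto (fun k : ℕ => s / 2 ^ k) atTop (𝓝[≠] 0) := by
      rw [tendsto_nhdsWithin_iff]
      constructor
      · have : Tendsto (fun k : ℕ => s * (1 / 2 : ℝ) ^ k) atTop (𝓝 (s * 0)) :=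
          (tendsto_pow_atTop_nhds_zero_of_lt_one (by norm_num) (by norm_num)).const_mul s
        rw [mul_zero] at this
        refine this.congr fun k => ?_
        rw [one_div, inv_pow, div_eq_mul_inv]
      · refine Eventually.of_forall fun k => ?_
        simp only [mem_compl_iff, mem_singleton_iff]
        positivity
    have h4 := h2.comp h3
    refine tendsto_nhds_unique (h4.congr fun k => ?_) (hψl y hy2)
    simp only [Function.comp, hA, Av, smul_eq_mul]
    exact (div_eq_inv_mul _ _).symm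

end Pool.Agent.Q237.BS
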